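import Pool.Agent.N490.PP.Fam
import Pool.Agent.N874.PM.Stm

/-!
# Project PM, part FAMT: the sieve with additional congruences (helper87)

The sieve of helper490 (`Pool.Agent.N490.PP.Fam`) for arbitrary residues at a finite set of primes.
-/

set_option autoImplicit false
set_option linter.all false

open Polynomial
open scoped Classical

namespace Pool.Agent.N87.PM

open Pool.Agent.N874.PP Pool.Agent.N490.PP.Fam

section pairs

variable {k : Type} [Field k] [Finite k]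

/-- the fibres over `a` prime to `P` -/
lemma fib' (h6 : (6 : k) ≠ 0) {P M a : k[X]} (hP : Irreducible P) (hPm : P.Monic) (hM : M.Monic)
    (hc : IsCoprime P M) (ha : ¬ P ∣ a) (n : ℕ) (g B : k[X]) :
    {b | b ∈ Cl n g M B ∧ P ^ 2 ∣ dsc a b}.Finite ∧
    {b | b ∈ Cl n g M B ∧ P ^ 2 ∣ dsc a b}.ncard ≤
      2 * Nat.card k ^ (n - (2 * P.natDegree + M.natDegree)) := by
  have hfin : {b | b ∈ Cl n g M B ∧ P ^ 2 ∣ dsc a b}.Finite :=
    (Cl_finite n g M B).subset fun _ h => h.1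
  refine ⟨hfin, ?_⟩
  have hm : (P ^ 2 * M).Monic := (hPm.pow 2).mul hM
  have hd : (P ^ 2 * M).natDegree = 2 * P.natDegree + M.natDegree := by
    rw [(hPm.pow 2).natDegree_mul hM, natDegree_pow]
  have hc2 : IsCoprime (P ^ 2) M := hc.pow_left
  -- one class modulo `P ^ 2`
  have key : ∀ r : k[X], {b | b ∈ Cl n g M B ∧ P ^ 2 ∣ b - r}.ncard ≤
      Nat.card k ^ (n - (2 * P.natDegree + M.natDegree)) := by
    intro r
    rcases Set.eq_empty_or_nonempty {b | b ∈ Cl n g M B ∧ P ^ 2 ∣ b - r} with h0 | ⟨b₁, h1, h2⟩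
    · rw [h0, Set.ncard_empty]; exact Nat.zero_le _
    · have hsub : {b | b ∈ Cl n g M B ∧ P ^ 2 ∣ b - r} ⊆ Cl n g (P ^ 2 * M) b₁ := by
        rintro b ⟨h3, h4⟩
        refine ⟨h3.1, hc2.mul_dvd ?_ ?_⟩
        · have : b - b₁ = (b - r) - (b₁ - r) := by ring
          rw [this]
          exact dvd_sub h4 h2
        · have : b - b₁ = (b - B) - (b₁ - B) := by ring
          rw [this]
          exact dvd_sub h3.2 h1.2
      have h3 := Set.ncard_le_ncard hsub (Cl_finite _ _ _ _)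
      have h4 := Cl_le (n := n) (f := g) (s := b₁) hm
      rw [hd] at h4
      exact h3.trans h4
  rcases Set.eq_empty_or_nonempty {b | b ∈ Cl n g M B ∧ P ^ 2 ∣ dsc a b} with h0 | ⟨b₁, h1, h2⟩
  · rw [h0, Set.ncard_empty]; exact Nat.zero_le _
  · have hsub : {b | b ∈ Cl n g M B ∧ P ^ 2 ∣ dsc a b} ⊆
        {b | b ∈ Cl n g M B ∧ P ^ 2 ∣ b - b₁} ∪ {b | b ∈ Cl n g M B ∧ P ^ 2 ∣ b - (-b₁)} := by
      rintro b ⟨h3, h4⟩
      rcases two_sol h6 hP ha h4 h2 with h5 | h5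
      · left
        exact ⟨h3, h5⟩
      · right
        refine ⟨h3, ?_⟩
        rw [sub_neg_eq_add]; exact h5
    have hf1 : {b | b ∈ Cl n g M B ∧ P ^ 2 ∣ b - b₁}.Finite :=
      (Cl_finite n g M B).subset fun _ h => h.1
    have hf2 : {b | b ∈ Cl n g M B ∧ P ^ 2 ∣ b - (-b₁)}.Finite :=
      (Cl_finite n g M B).subset fun _ h => h.1
    have h3 := Set.ncard_le_ncard hsub (hf1.union hf2)
    have h4 := Set.ncard_union_le {b | b ∈ Cl n g M B ∧ P ^ 2 ∣ b - b₁}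
      {b | b ∈ Cl n g M B ∧ P ^ 2 ∣ b - (-b₁)}
    have h5 := key b₁
    have h6 := key (-b₁)
    omega

/-- the pairs with discriminant divisible by `P ^ 2` -/
def Bad' (n m : ℕ) (f g M A B P : k[X]) : Set (k[X] × k[X]) :=
  {p | p.1 ∈ Cl n f M A ∧ p.2 ∈ Cl m g M B ∧ P ^ 2 ∣ dsc p.1 p.2}

lemma Bad_le' (h6 : (6 : k) ≠ 0) {P M : k[X]} (hP : Irreducible P) (hPm : P.Monic) (hM : M.Monic)
    (hc : IsCoprime P M) (n m : ℕ) (f g A B : k[X]) :
    (Bad' n m f g M A B P).Finite ∧ (Bad' n m f g M A B P).ncard ≤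
      Nat.card k ^ (n - M.natDegree) * (2 * Nat.card k ^ (m - (2 * P.natDegree + M.natDegree))) +
      Nat.card k ^ (n - (P.natDegree + M.natDegree)) * Nat.card k ^ (m - (P.natDegree + M.natDegree)) := by
  obtain ⟨f1, c1⟩ := ncard_fib {a | a ∈ Cl n f M A ∧ ¬ P ∣ a} ((Cl_finite n f M A).subset fun _ h => h.1)
    (fun a => {b | b ∈ Cl m g M B ∧ P ^ 2 ∣ dsc a b})
    (2 * Nat.card k ^ (m - (2 * P.natDegree + M.natDegree)))
    (fun a ha => fib' h6 hP hPm hM hc ha.2 m g B)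
  obtain ⟨f2, c2⟩ := Cl_dvd hPm hM hc n f A
  obtain ⟨f3, c3⟩ := Cl_dvd hPm hM hc m g B
  obtain ⟨f4, c4⟩ := ncard_fib {a | a ∈ Cl n f M A ∧ P ∣ a} f2
    (fun _ => {b | b ∈ Cl m g M B ∧ P ∣ b}) _ (fun a _ => ⟨f3, c3⟩)
  have hsub : Bad' n m f g M A B P ⊆
      {p : k[X] × k[X] | p.1 ∈ {a | a ∈ Cl n f M A ∧ ¬ P ∣ a} ∧
        p.2 ∈ {b | b ∈ Cl m g M B ∧ P ^ 2 ∣ dsc p.1 b}} ∪
      {p : k[X] × k[X] | p.1 ∈ {a | a ∈ Cl n f M A ∧ P ∣ a} ∧ p.2 ∈ {b | b ∈ Cl m g M B ∧ P ∣ b}} := by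
    rintro ⟨a, b⟩ ⟨h1, h2, h3⟩
    by_cases ha : P ∣ a
    · right
      exact ⟨⟨h1, ha⟩, h2, dvd_b h6 hP ha h3⟩
    · left
      exact ⟨⟨h1, ha⟩, h2, h3⟩
  refine ⟨(f1.union f4).subset hsub, ?_⟩
  refine (Set.ncard_le_ncard hsub (f1.union f4)).trans ((Set.ncard_union_le _ _).trans ?_)
  refine add_le_add (c1.trans ?_) (c4.trans ?_)
  · refine Nat.mul_le_mul_right _ ?_
    exact (Set.ncard_le_ncard (fun _ h => h.1) (Cl_finite n f M A)).trans (Cl_le hM)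
  · exact Nat.mul_le_mul_right _ c2

/-- the number of the pairs with discriminant not squarefree -/
lemma NS_le' (h6 : (6 : k) ≠ 0) {M : k[X]} (hM : M.Monic) (N Y : ℕ) (hN : 1 ≤ N) (hY : Y ≤ 6 * N)
    (A B : k[X]) (a₀ b₀ : k)
    (hgood : ∀ P a b : k[X], Irreducible P → M ∣ a - A → M ∣ b - B →
      P ∣ dsc a b → IsCoprime P M) :
    {p : k[X] × k[X] | p.1 ∈ Cl (4 * N) (C a₀ * X ^ (4 * N)) M A ∧
      p.2 ∈ Cl (6 * N) (C b₀ * X ^ (6 * N)) M B ∧ ¬ Squarefree (dsc p.1 p.2)}.ncard ≤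
    ∑ d ∈ Finset.Icc 1 Y, Nat.card k ^ d *
      (Nat.card k ^ (4 * N - M.natDegree) * (2 * Nat.card k ^ (6 * N - (2 * d + M.natDegree))) +
      Nat.card k ^ (4 * N - (d + M.natDegree)) * Nat.card k ^ (6 * N - (d + M.natDegree))) +
    ∑ d ∈ Finset.Icc (Y + 1) (6 * N), (Irr k d).ncard *
      (Nat.card k ^ (4 * N) * (2 * Nat.card k ^ (6 * N - 2 * d)) +
      Nat.card k ^ (4 * N - d) * Nat.card k ^ (6 * N - d)) := by
  obtain ⟨f1, c1⟩ := union_fin (Finset.Icc 1 Y)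
    (fun d => ⋃ P ∈ {P | P ∈ Irr k d ∧ IsCoprime P M},
      Bad' (4 * N) (6 * N) (C a₀ * X ^ (4 * N)) (C b₀ * X ^ (6 * N)) M A B P)
    (fun d => Nat.card k ^ d *
      (Nat.card k ^ (4 * N - M.natDegree) * (2 * Nat.card k ^ (6 * N - (2 * d + M.natDegree))) +
      Nat.card k ^ (4 * N - (d + M.natDegree)) * Nat.card k ^ (6 * N - (d + M.natDegree))))
    (fun d _ => by
      have hfin : {P | P ∈ Irr k d ∧ IsCoprime P M}.Finite := (Irr_finite d).subset fun _ h => h.1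
      obtain ⟨g1, g2⟩ := union_le {P | P ∈ Irr k d ∧ IsCoprime P M} hfin
        (fun P => Bad' (4 * N) (6 * N) (C a₀ * X ^ (4 * N)) (C b₀ * X ^ (6 * N)) M A B P)
        (Nat.card k ^ (4 * N - M.natDegree) * (2 * Nat.card k ^ (6 * N - (2 * d + M.natDegree))) +
      Nat.card k ^ (4 * N - (d + M.natDegree)) * Nat.card k ^ (6 * N - (d + M.natDegree)))
        (fun P hP => by
          have h1 := Bad_le' h6 hP.1.2.1 hP.1.1 hM hP.2 (4 * N) (6 * N) (C a₀ * X ^ (4 * N))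
            (C b₀ * X ^ (6 * N)) A B
          rw [hP.1.2.2] at h1
          exact h1)
      refine ⟨g1, g2.trans (Nat.mul_le_mul_right _ ?_)⟩
      exact (Set.ncard_le_ncard (fun _ h => h.1) (Irr_finite d)).trans (Irr_le d))
  obtain ⟨f2, c2⟩ := union_fin (Finset.Icc (Y + 1) (6 * N))
    (fun d => ⋃ P ∈ Irr k d,
      Bad' (4 * N) (6 * N) (C a₀ * X ^ (4 * N)) (C b₀ * X ^ (6 * N)) 1 0 0 P)
    (fun d => (Irr k d).ncard *
      (Nat.card k ^ (4 * N) * (2 * Nat.card k ^ (6 * N - 2 * d)) +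
      Nat.card k ^ (4 * N - d) * Nat.card k ^ (6 * N - d)))
    (fun d _ => union_le (Irr k d) (Irr_finite d)
        (fun P => Bad' (4 * N) (6 * N) (C a₀ * X ^ (4 * N)) (C b₀ * X ^ (6 * N)) 1 0 0 P) _
        (fun P hP => by
          have h1 := Bad_le' h6 hP.2.1 hP.1 monic_one isCoprime_one_right (4 * N) (6 * N)
            (C a₀ * X ^ (4 * N)) (C b₀ * X ^ (6 * N)) 0 0
          rw [hP.2.2, natDegree_one] at h1
          exact h1))
  refine (Set.ncard_le_ncard ?_ (f1.union f2)).trans ((Set.ncard_union_le _ _).trans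
    (add_le_add c1 c2))
  rintro ⟨a, b⟩ ⟨h1, h2, h3⟩
  have h1' := mem_box.1 h1.1
  have h2' := mem_box.1 h2.1
  obtain ⟨P, p1, p2, p3, p4, p5⟩ := exists_sq hN (dsc_deg h1'.1 h2'.1) h3
  by_cases hd : P.natDegree ≤ Y
  · left
    simp only [Set.mem_iUnion]
    exact ⟨P.natDegree, Finset.mem_Icc.2 ⟨p3, hd⟩, P, ⟨⟨p1, p2, rfl⟩,
      hgood P a b p2 h1.2 h2.2 ((dvd_pow_self P two_ne_zero).trans p5)⟩, h1, h2, p5⟩
  · right
    simp only [Set.mem_iUnion]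
    exact ⟨P.natDegree, Finset.mem_Icc.2 ⟨by omega, p4⟩, P, ⟨p1, p2, rfl⟩,
      ⟨h1.1, one_dvd _⟩, ⟨h2.1, one_dvd _⟩, p5⟩

end pairs

/-- The family with arbitrary residues at the primes in `U`. -/
structure FamU {k : Type} [Field k] (N : ℕ) (a₀ b₀ : k) (U : Finset k[X]) (α β : k[X] → k[X])
    (a b : k[X]) : Prop where
  da : a.natDegree ≤ 4 * N
  db : b.natDegree ≤ 6 * N
  ca : a.coeff (4 * N) = a₀
  cb : b.coeff (6 * N) = b₀
  ra : ∀ Q ∈ U, Q ∣ a - α Q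
  rb : ∀ Q ∈ U, Q ∣ b - β Q
  sq : Squarefree (dsc a b)

/-- Many curves with squarefree discriminant and arbitrary residues at the primes in `U` (such that
these primes do not divide the discriminant). -/
theorem famU (k : Type) [Field k] [Finite k] (h6 : (6 : k) ≠ 0) (a₀ b₀ : k) (S : Finset k[X])
    (α β : k[X] → k[X])
    (hS : ∀ Q ∈ S, Q.Monic ∧ Irreducible Q ∧ ¬ Q ∣ dsc (α Q) (β Q)) :
    ∃ N₀ : ℕ, ∀ N ≥ N₀,
      1 / 8 * (Nat.card k : ℝ) ^ (10 * N) ≤ ((∏ Q ∈ S, nm Q ^ 2 : ℕ) : ℝ) *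
        ({p : k[X] × k[X] | FamU N a₀ b₀ S α β p.1 p.2}.ncard : ℝ) := by
  have hq := card_ge h6
  obtain ⟨M, hM⟩ : ∃ M : k[X], M = ∏ Q ∈ S, Q := ⟨_, rfl⟩
  have hMm : M.Monic := by
    rw [hM]; exact monic_prod_of_monic _ _ fun Q hQ => (hS Q hQ).1
  obtain ⟨D, hD⟩ : ∃ D : ℕ, D = M.natDegree := ⟨_, rfl⟩
  have hD' : D = ∑ Q ∈ S, Q.natDegree := by
    rw [hD, hM, natDegree_prod_of_monic _ _ fun Q hQ => (hS Q hQ).1]
  have hcop : ∀ Q ∈ S, ∀ R ∈ S, Q ≠ R → IsCoprime Q R := fun Q hQ R hR hne =>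
    coprime_of_ne ⟨(hS Q hQ).1, (hS Q hQ).2.1⟩ ⟨(hS R hR).1, (hS R hR).2.1⟩ hne
  have hMdvd : ∀ x : k[X], M ∣ x ↔ ∀ Q ∈ S, Q ∣ x := by
    intro x
    constructor
    · intro h Q hQ
      refine Dvd.dvd.trans ?_ h
      rw [hM]
      exact Finset.dvd_prod_of_mem _ hQ
    · intro h
      rw [hM]
      exact Finset.prod_dvd_of_coprime (fun Q hQ R hR hne =>
        hcop Q (by simpa using hQ) R (by simpa using hR) hne) h
  -- Chinese remainder theorem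
  have crt : ∀ s : k[X] → k[X], ∃ A : k[X], ∀ Q ∈ S, Q ∣ A - s Q := by
    intro s
    have h1 : Pairwise (Function.onFun IsCoprime fun Q : S => Ideal.span {(Q : k[X])}) := by
      intro Q R hne
      show IsCoprime (Ideal.span {(Q : k[X])}) (Ideal.span {(R : k[X])})
      rw [Ideal.isCoprime_span_singleton_iff]
      exact hcop Q Q.2 R R.2 fun h => hne (Subtype.ext h)
    obtain ⟨A, hA⟩ := Ideal.exists_forall_sub_mem_ideal h1 (fun Q : S => s Q)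
    exact ⟨A, fun Q hQ => Ideal.mem_span_singleton.1 (hA ⟨Q, hQ⟩)⟩
  obtain ⟨A, hA⟩ := crt α
  obtain ⟨B, hB⟩ := crt β
  have tr : ∀ x y z Q : k[X], Q ∣ x - y → Q ∣ y - z → Q ∣ x - z := by
    intro x y z Q h1 h2
    have e1 : x - z = (x - y) + (y - z) := by ring
    rw [e1]
    exact dvd_add h1 h2
  have tr' : ∀ x y z Q : k[X], Q ∣ x - y → Q ∣ z - y → Q ∣ x - z := by
    intro x y z Q h1 h2
    have e1 : x - z = (x - y) - (z - y) := by ring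
    rw [e1]
    exact dvd_sub h1 h2
  have hnm : ∏ Q ∈ S, nm Q ^ 2 = Nat.card k ^ (2 * D) := by
    rw [hD', Finset.mul_sum, ← Finset.prod_pow_eq_pow_sum]
    refine Finset.prod_congr rfl fun Q _ => ?_
    unfold nm
    rw [← pow_mul, mul_comm]
  refine ⟨20 * Nat.card k ^ (2 * D) + (2 * (2 * D + 2) + D) + 1, ?_⟩
  intro N hN
  have hN1 : 1 ≤ N := by omega
  have hq2 : 0 ≤ Nat.card k ^ (2 * D) := Nat.zero_le _
  -- the whole box and the bad pairs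
  obtain ⟨T, hT⟩ : ∃ T : Set (k[X] × k[X]), T = Cl (4 * N) (C a₀ * X ^ (4 * N)) M A ×ˢ
      Cl (6 * N) (C b₀ * X ^ (6 * N)) M B := ⟨_, rfl⟩
  obtain ⟨NS, hNS⟩ : ∃ NS : Set (k[X] × k[X]), NS = {p : k[X] × k[X] |
      p.1 ∈ Cl (4 * N) (C a₀ * X ^ (4 * N)) M A ∧
      p.2 ∈ Cl (6 * N) (C b₀ * X ^ (6 * N)) M B ∧ ¬ Squarefree (dsc p.1 p.2)} := ⟨_, rfl⟩
  have hTfin : T.Finite := by
    rw [hT]; exact (Cl_finite _ _ _ _).prod (Cl_finite _ _ _ _)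
  have hNST : NS ⊆ T := by
    rw [hNS, hT]
    intro p hp
    exact ⟨hp.1, hp.2.1⟩
  have hTc : T.ncard = Nat.card k ^ (4 * N - D) * Nat.card k ^ (6 * N - D) := by
    rw [hT, Set.ncard_prod, Cl_ncard hMm (by omega), Cl_ncard hMm (by omega), hD]
  have hFam : T \ NS ⊆ {p : k[X] × k[X] | FamU N a₀ b₀ S α β p.1 p.2} := by
    rintro ⟨a, b⟩ ⟨h1, h2⟩
    rw [hT] at h1
    rw [hNS] at h2
    obtain ⟨h3, h4⟩ := h1
    have h3' := mem_box.1 h3.1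
    have h4' := mem_box.1 h4.1
    refine ⟨h3'.1, h4'.1, h3'.2, h4'.2, ?_, ?_, ?_⟩
    · intro Q hQ
      exact tr _ _ _ _ ((hMdvd _).1 h3.2 Q hQ) (hA Q hQ)
    · intro Q hQ
      exact tr _ _ _ _ ((hMdvd _).1 h4.2 Q hQ) (hB Q hQ)
    · by_contra h5
      exact h2 ⟨h3, h4, h5⟩
  have hFfin : {p : k[X] × k[X] | FamU N a₀ b₀ S α β p.1 p.2}.Finite := by
    refine hTfin.subset ?_
    rintro ⟨a, b⟩ h
    rw [hT]
    refine ⟨⟨mem_box.2 ⟨h.da, h.ca⟩, ?_⟩, ⟨mem_box.2 ⟨h.db, h.cb⟩, ?_⟩⟩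
    · rw [hMdvd]
      intro Q hQ
      exact tr' _ _ _ _ (h.ra Q hQ) (hA Q hQ)
    · rw [hMdvd]
      intro Q hQ
      exact tr' _ _ _ _ (h.rb Q hQ) (hB Q hQ)
  have hgood : ∀ P a b : k[X], Irreducible P → M ∣ a - A → M ∣ b - B →
      P ∣ dsc a b → IsCoprime P M := by
    intro P a b hP ha hb hd
    rw [hP.coprime_iff_not_dvd]
    intro hPM
    rw [hM, hP.prime.dvd_finset_prod_iff] at hPM
    obtain ⟨Q, hQ, hPQ⟩ := hPM
    have hQP : Q ∣ P := (hP.associated_of_dvd (hS Q hQ).2.1 hPQ).symm.dvd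
    have hQd : Q ∣ dsc a b := hQP.trans hd
    have hQa : Q ∣ a - α Q := tr _ _ _ _ ((hMdvd _).1 ha Q hQ) (hA Q hQ)
    have hQb : Q ∣ b - β Q := tr _ _ _ _ ((hMdvd _).1 hb Q hQ) (hB Q hQ)
    refine (hS Q hQ).2.2 ?_
    have e1 : dsc (α Q) (β Q) = dsc a b - (a - α Q) * (4 * (a ^ 2 + a * α Q + α Q ^ 2)) -
        (b - β Q) * (27 * (b + β Q)) := by
      unfold dsc; ring
    rw [e1]
    exact dvd_sub (dvd_sub hQd (hQa.mul_right _)) (hQb.mul_right _)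
  have h1 := NS_le' h6 hMm N (2 * D + 2) hN1 (by omega) A B a₀ b₀ hgood
  rw [← hNS, ← hD] at h1
  have h2 := num hq hN (fun d => (Irr k d).ncard) Irr_le (fun d hd => Irr_mul_le hd)
  have h3 : ((NS.ncard : ℕ) : ℝ) ≤ 7 / 8 * ((T.ncard : ℕ) : ℝ) := by
    rw [hTc]
    refine le_trans ?_ h2
    exact_mod_cast h1
  have h4 : T.ncard - NS.ncard ≤ {p : k[X] × k[X] | FamU N a₀ b₀ S α β p.1 p.2}.ncard := by
    rw [← Set.ncard_sdiff hNST (hTfin.subset hNST)]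
    exact Set.ncard_le_ncard hFam hFfin
  have h5 : NS.ncard ≤ T.ncard := Set.ncard_le_ncard hNST hTfin
  have h6' : ((T.ncard : ℕ) : ℝ) - ((NS.ncard : ℕ) : ℝ) ≤
      ({p : k[X] × k[X] | FamU N a₀ b₀ S α β p.1 p.2}.ncard : ℝ) := by
    rw [← Nat.cast_sub h5]
    exact_mod_cast h4
  have h7 : 1 / 8 * ((T.ncard : ℕ) : ℝ) ≤
      ({p : k[X] × k[X] | FamU N a₀ b₀ S α β p.1 p.2}.ncard : ℝ) := by
    linarith
  rw [hnm]
  have h8 : (Nat.card k : ℝ) ^ (10 * N) = ((Nat.card k ^ (2 * D) : ℕ) : ℝ) * ((T.ncard : ℕ) : ℝ) := by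
    rw [hTc]
    push_cast
    rw [← pow_add, ← pow_add]
    congr 1
    omega
  rw [h8]
  have h9 : (0:ℝ) ≤ ((Nat.card k ^ (2 * D) : ℕ) : ℝ) := Nat.cast_nonneg _
  calc 1 / 8 * (((Nat.card k ^ (2 * D) : ℕ) : ℝ) * ((T.ncard : ℕ) : ℝ))
      = ((Nat.card k ^ (2 * D) : ℕ) : ℝ) * (1 / 8 * ((T.ncard : ℕ) : ℝ)) := by ring
    _ ≤ _ := mul_le_mul_of_nonneg_left h7 h9

/-- A cubic with a double zero modulo `P` has a zero modulo `P`. -/
lemma root_of_dsc {k : Type} [Field k] [Finite k] (h6 : (6 : k) ≠ 0) {P A B : k[X]}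
    (hP : Irreducible P) (h : P ∣ dsc A B) : ∃ z : k[X], P ∣ z ^ 3 + A * z + B := by
  by_cases hA : P ∣ A
  · refine ⟨0, ?_⟩
    have h1 : P ∣ 27 * B ^ 2 := by
      have h2 : P ∣ 4 * A ^ 3 := Dvd.dvd.mul_left (hA.trans (dvd_pow_self A three_ne_zero)) _
      unfold dsc at h
      exact (dvd_add_right h2).1 h
    have h3 : P ∣ B := hP.prime.dvd_of_dvd_pow (dvd_of_unit_mul (unit27 h6) h1)
    have e1 : (0 : k[X]) ^ 3 + A * 0 + B = B := by ring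
    rw [e1]
    exact h3
  · have h2A : ¬ P ∣ 2 * A := fun h1 => hA (dvd_of_unit_mul (unit2 h6) h1)
    obtain ⟨u, v, huv⟩ := (hP.coprime_iff_not_dvd.2 h2A)
    -- `u * P + v * (2 * A) = 1`
    refine ⟨-3 * B * v, ?_⟩
    have h3 : P ∣ (2 * A) ^ 3 * ((-3 * B * v) ^ 3 + A * (-3 * B * v) + B) := by
      have e0 : 2 * A * v = 1 - u * P := by linear_combination huv
      have e1 : (2 * A) ^ 3 * ((-3 * B * v) ^ 3 + A * (-3 * B * v) + B) =
          -27 * B ^ 3 * (2 * A * v) ^ 3 - 12 * A ^ 3 * B * (2 * A * v) + 8 * A ^ 3 * B := by ring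
      have e2 : (2 * A) ^ 3 * ((-3 * B * v) ^ 3 + A * (-3 * B * v) + B) =
          -B * dsc A B + P * (27 * B ^ 3 * (u * (3 - 3 * (u * P) + (u * P) ^ 2)) +
            12 * A ^ 3 * B * u) := by
        rw [e1, e0]
        unfold dsc
        ring
      rw [e2]
      exact dvd_add (h.mul_left _) (dvd_mul_right _ _)
    rcases hP.prime.dvd_or_dvd h3 with h4 | h4
    · exact absurd (hP.prime.dvd_of_dvd_pow h4) h2A
    · exact h4

/-- **Project PM, FAMT.** -/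
theorem famt : Pool.Agent.N874.PM.S_FAMT := by
  intro k _ _ h6 a₀ b₀ _ T A B hT
  have hTpos : 0 < ∏ P ∈ T, nm P ^ 2 := by
    refine Finset.prod_pos fun P _ => ?_
    unfold nm
    have := q_pos (k := k)
    positivity
  have hTpos' : (0 : ℝ) < ((∏ P ∈ T, nm P ^ 2 : ℕ) : ℝ) := by exact_mod_cast hTpos
  refine ⟨1 / 8 / ((∏ P ∈ T, nm P ^ 2 : ℕ) : ℝ), by positivity, ?_⟩
  intro S s hS hST
  obtain ⟨N₀, hN₀⟩ := famU k h6 a₀ b₀ (S ∪ T) (fun Q => if Q ∈ T then A Q else s Q)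
    (fun Q => if Q ∈ T then B Q else 0) (by
      intro Q hQ
      by_cases h : Q ∈ T
      · simp only [if_pos h]
        refine ⟨(hT Q h).1, (hT Q h).2.1, fun hd => ?_⟩
        obtain ⟨z, hz⟩ := root_of_dsc h6 (hT Q h).2.1 hd
        exact (hT Q h).2.2 z hz
      · have hQS : Q ∈ S := by
          rcases Finset.mem_union.1 hQ with h1 | h1
          · exact h1
          · exact absurd h1 h
        simp only [if_neg h]
        refine ⟨(hS Q hQS).1, (hS Q hQS).2.1, fun hd => ?_⟩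
        have h1 : Q ∣ s Q := dvd_a h6 (hS Q hQS).2.1 (dvd_zero Q) hd
        refine (hS Q hQS).2.2 0 ?_
        rw [zero_pow two_ne_zero, zero_add]
        exact h1)
  refine ⟨N₀, fun N hN => ?_⟩
  have h1 := hN₀ N hN
  have hfin : {p : k[X] × k[X] | Pool.Agent.N874.PM.FamT N a₀ b₀ S s T A B p.1 p.2}.Finite := by
    have hb : ((Cl (4 * N) (C a₀ * X ^ (4 * N)) 1 0) ×ˢ
        (Cl (6 * N) (C b₀ * X ^ (6 * N)) 1 0) : Set (k[X] × k[X])).Finite :=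
      (Cl_finite _ _ _ _).prod (Cl_finite _ _ _ _)
    refine hb.subset ?_
    rintro ⟨a, b⟩ h
    exact ⟨⟨mem_box.2 ⟨h.fam.da, h.fam.ca⟩, one_dvd _⟩, ⟨mem_box.2 ⟨h.fam.db, h.fam.cb⟩, one_dvd _⟩⟩
  have hsub : {p : k[X] × k[X] | FamU N a₀ b₀ (S ∪ T) (fun Q => if Q ∈ T then A Q else s Q)
      (fun Q => if Q ∈ T then B Q else 0) p.1 p.2} ⊆
      {p : k[X] × k[X] | Pool.Agent.N874.PM.FamT N a₀ b₀ S s T A B p.1 p.2} := by
    rintro ⟨a, b⟩ h
    refine ⟨⟨h.da, h.db, h.ca, h.cb, ?_, ?_, h.sq⟩, ?_, ?_⟩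
    · intro Q hQ
      have h2 : Q ∉ T := fun h3 => (Finset.disjoint_left.1 hST) hQ h3
      have h3 := h.ra Q (Finset.mem_union_left _ hQ)
      simp only [if_neg h2] at h3
      exact h3
    · intro Q hQ
      have h2 : Q ∉ T := fun h3 => (Finset.disjoint_left.1 hST) hQ h3
      have h3 := h.rb Q (Finset.mem_union_left _ hQ)
      simp only [if_neg h2, sub_zero] at h3
      exact h3
    · intro Q hQ
      have h3 := h.ra Q (Finset.mem_union_right _ hQ)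
      simp only [if_pos hQ] at h3
      exact h3
    · intro Q hQ
      have h3 := h.rb Q (Finset.mem_union_right _ hQ)
      simp only [if_pos hQ] at h3
      exact h3
  have h2 : (({p : k[X] × k[X] | FamU N a₀ b₀ (S ∪ T) (fun Q => if Q ∈ T then A Q else s Q)
      (fun Q => if Q ∈ T then B Q else 0) p.1 p.2}.ncard : ℕ) : ℝ) ≤
      (({p : k[X] × k[X] | Pool.Agent.N874.PM.FamT N a₀ b₀ S s T A B p.1 p.2}.ncard : ℕ) : ℝ) := by
    exact_mod_cast Set.ncard_le_ncard hsub hfin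
  rw [Finset.prod_union hST] at h1
  rw [div_mul_eq_mul_div, div_le_iff₀ hTpos']
  refine h1.trans ?_
  push_cast
  calc ((∏ Q ∈ S, (nm Q : ℝ) ^ 2) * ∏ Q ∈ T, (nm Q : ℝ) ^ 2) *
        (({p : k[X] × k[X] | FamU N a₀ b₀ (S ∪ T) (fun Q => if Q ∈ T then A Q else s Q)
      (fun Q => if Q ∈ T then B Q else 0) p.1 p.2}.ncard : ℕ) : ℝ)
      ≤ ((∏ Q ∈ S, (nm Q : ℝ) ^ 2) * ∏ Q ∈ T, (nm Q : ℝ) ^ 2) *
        (({p : k[X] × k[X] | Pool.Agent.N874.PM.FamT N a₀ b₀ S s T A B p.1 p.2}.ncard : ℕ) : ℝ) :=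
        mul_le_mul_of_nonneg_left h2 (by positivity)
    _ = _ := by ring

end Pool.Agent.N87.PM
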